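import Pool.Agent.helper37.NA.Spec

/-!
# MP_baa4d7_al, THEOREM NA, row NDG: the relative form of DG6
-/

set_option autoImplicit false

namespace Pool.Agent.NAB

open Pool.Agent.helper58.DC Pool.Agent.DI Pool.Agent.GR Pool.Agent.OB Pool.Agent.DR Pool.Agent.FI Pool.Agent.FI3 Pool.Agent.FI4 Pool.Agent.FI4I Pool.Agent.LE Pool.Agent.L5

theorem NDG (hDG6 : DG6_stmt) (hTR1 : TR1_stmt) (hTR2 : TR2_stmt) (hTR3 : TR3_stmt) (hCLS : CLS_stmt)
    (hTPR : Pool.Agent.FI.TPR_stmt) : NDG_stmt := by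
  intro p M hS G _ _ L ψ hψ D y hD z hz hzc
  have hDL : D ≤ L := fun d hd => (Subgroup.mem_inf.1 (hD.le hd)).1
  have hself : L.subgroupOf L = ⊤ := Subgroup.subgroupOf_self L
  obtain ⟨a1, -, -⟩ := hTR1 G L L le_rfl
  obtain ⟨b1, b2, b3, b4⟩ := hTR2 G M L
  obtain ⟨c1, c2, c3, c4, c5⟩ := hTR3 p G L
  obtain ⟨d1, d2, -, -, d5⟩ := hTPR p M hS L
  have hψL : ∀ y, y ∉ L → ψ y = 0 := hψ.1
  have hom : ∀ y : L, omega (rN L ψ) y = cc ψ (cls L (y : G)) := by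
    intro y
    rw [(hCLS L (⊤ : Subgroup L) y).2.2.2.2.2.2.2.1 (rN L ψ), ← hself, ← b3 L le_rfl y]
    exact b1 ψ _ hψL
  have hcen : ∀ y : L, pp p (Subgroup.centralizer ({y} : Set L)) = pp p (Cz L (y : G)) := by
    intro y
    rw [← d5 y, ← hself]
    exact (c3 L le_rfl y).2
  have hcard : Nat.card (D.subgroupOf L) = Nat.card D := (c2 D hDL).1
  have hirr : rN L ψ ∈ Irr L := by
    rw [← d1, ← hself]
    exact (a1 ψ hψL).1 hψ
  have hdef : DefAt p M (rN L ψ) (D.subgroupOf L) ⟨y, hD.mem⟩ := by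
    refine ⟨?_, ?_, ?_, ?_, ?_, ?_⟩
    · exact (c4 ⟨y, hD.mem⟩).1.2 hD.reg
    · rw [hom]
      exact hD.ne
    · intro d hd
      have h1 : (d : G) ∈ D := Subgroup.mem_subgroupOf.1 hd
      rw [Subgroup.mem_centralizer_iff]
      rintro _ rfl
      have h2 := (Subgroup.mem_inf.1 (hD.le h1)).2
      rw [Subgroup.mem_centralizer_iff] at h2
      exact Subtype.ext (h2 y rfl)
    · exact (c2 D hDL).2.2 hD.pg
    · rw [hcard, hcen]
      exact hD.card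
    · intro w hw
      rw [hom] at hw
      rw [hcard, hcen]
      exact hD.min w w.2 hw
  have h := hDG6 p M hS L (rN L ψ) hirr (D.subgroupOf L) ⟨y, hD.mem⟩ hdef ⟨z, hDL hz⟩
    (Subgroup.mem_subgroupOf.2 hz) (fun d hd => Subtype.ext (hzc d (Subgroup.mem_subgroupOf.1 hd)))
  rw [hom] at h
  exact h

end Pool.Agent.NAB
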