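import Pool.Agent.helper97.NA.SpecE

/-!
# MP_baa4d7_al, THEOREM NA, block E, row XTO
-/

set_option autoImplicit false

namespace Pool.Agent.NAB

open Pool.Agent.helper58.DC Pool.Agent.DI Pool.Agent.GR Pool.Agent.OB Pool.Agent.DR Pool.Agent.FI Pool.Agent.FI3 Pool.Agent.FI4 Pool.Agent.FI4I Pool.Agent.FI4E Pool.Agent.LE Pool.Agent.L5

theorem XTO_nrm {G : Type} [Group G] (R : Subgroup G) : nrm ({R} : Finset (Subgroup G)) = nz R := by
  unfold nrm
  simp only [Finset.mem_singleton, iInf_iInf_eq_left]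

theorem XTO_empty {G : Type} [Group G] (p e m : ℕ) (M : Ideal (integralClosure ℤ ℂ)) (L K E : Subgroup G) (ψ : G → ℂ) (β : MulAut G)
    (h : BE p e m M L K E ψ = ∅) : tB p e m M L K E ψ β = 0 := by
  unfold tB tS
  rw [h]
  exact finsum_mem_empty

open Classical in
theorem XTO (hXTG : XTG_stmt) (hXZE : XZE_stmt) : XTO_stmt := by
  intro p e m M hM hme G _ _ χ hχ z x hU R hRp hRn hER β E' hβE hβR
  haveI : Fact p.Prime := ⟨hM.pr⟩
  have hfin : ∀ S : Set (Finset (Subgroup G)), S.Finite := fun S => Set.toFinite S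
  have hnR : nrm ({R} : Finset (Subgroup G)) ⊓ nz E' = nz E' := by
    rw [XTO_nrm, hRn, top_inf_eq]
  have hone : NCh p ⊤ R ({R} : Finset (Subgroup G)) := by
    refine ⟨⟨?_, ?_, ?_, ?_, ?_⟩, ?_⟩
    · rw [Finset.coe_singleton]
      exact Set.pairwise_singleton _ _
    · simp
    · intro Q hQ
      rw [Finset.mem_singleton] at hQ
      rw [hQ]
    · intro Q hQ
      exact le_top
    · intro Q hQ
      rw [Finset.mem_singleton] at hQ
      rw [hQ]
      exact hRp
    · intro Q hQ Q' hQ' _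
      rw [Finset.mem_singleton] at hQ
      rw [hQ, hRn]
      exact le_top
  have honeβ : FxC β ({R} : Finset (Subgroup G)) := by
    intro Q hQ
    rw [Finset.mem_singleton] at hQ
    rw [hQ]
    exact hβR
  let f : Finset (Subgroup G) → ℂ := fun C =>
    (-1 : ℂ) ^ (C.card + 1) * tB p e m M (⊤ : Subgroup G) (nrm C ⊓ nz E') E' χ β
  have hset : {C : Finset (Subgroup G) | NCh p ⊤ R C ∧ FxC β C} = insert ({R} : Finset (Subgroup G))
      {C : Finset (Subgroup G) | (NCh p ⊤ R C ∧ C ≠ {R}) ∧ FxC β C} := by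
    ext C
    simp only [Set.mem_insert_iff, Set.mem_setOf_eq]
    constructor
    · rintro ⟨h1, h2⟩
      by_cases h3 : C = {R}
      · exact Or.inl h3
      · exact Or.inr ⟨⟨h1, h3⟩, h2⟩
    · rintro (rfl | ⟨⟨h1, -⟩, h2⟩)
      · exact ⟨hone, honeβ⟩
      · exact ⟨h1, h2⟩
  have hnot : ({R} : Finset (Subgroup G)) ∉
      {C : Finset (Subgroup G) | (NCh p ⊤ R C ∧ C ≠ {R}) ∧ FxC β C} := fun h => h.1.2 rfl
  -- the sum over all chains is zero
  have hall : ∑ᶠ C ∈ {C : Finset (Subgroup G) | NCh p ⊤ R C ∧ FxC β C}, f C = 0 := by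
    by_cases hex : ∃ C : Finset (Subgroup G), NCh p ⊤ R C ∧ (BE p e m M (⊤ : Subgroup G) (nrm C ⊓ nz E') E' χ).Nonempty
    · obtain ⟨C₀, hC₀, η, hη⟩ := hex
      obtain ⟨-, -, hEp, hEc, g, hg⟩ := hXZE p e m M hM hme G χ hχ z x hU R C₀ hC₀ E' η hη
      have hRc : ∀ h y : G, y ∈ R → h * y * h⁻¹ ∈ R := by
        intro h y hy
        have h1 : h ∈ nz R := by rw [hRn]; trivial
        rw [Subgroup.mem_normalizer_iff] at h1
        exact (h1 y).1 hy
      have hE'R : ¬ E' ≤ R := by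
        intro h1
        apply hER
        intro y hy
        have h2 : g * y * g⁻¹ ∈ E' := by
          rw [hg, mem_cjS]
          have h3 : g⁻¹ * (g * y * g⁻¹) * g = y := by group
          rw [h3]
          exact hy
        have h3 := hRc g⁻¹ _ (h1 h2)
        have h4 : g⁻¹ * (g * y * g⁻¹) * g⁻¹⁻¹ = y := by group
        rw [h4] at h3
        exact h3
      have h0 := hXTG G p R E' β (fun K => tB p e m M (⊤ : Subgroup G) K E' χ β) hEp hEc hE'R hβE
      refine Eq.trans ?_ h0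
      refine finsum_mem_inter_support_eq f _ _ ?_
      ext C
      constructor
      · rintro ⟨⟨h1, h2⟩, h3⟩
        refine ⟨⟨h1, h2, ?_⟩, h3⟩
        have h4 : (BE p e m M (⊤ : Subgroup G) (nrm C ⊓ nz E') E' χ).Nonempty := by
          by_contra hcon
          rw [Set.not_nonempty_iff_eq_empty] at hcon
          apply h3
          show (-1 : ℂ) ^ (C.card + 1) * tB p e m M (⊤ : Subgroup G) (nrm C ⊓ nz E') E' χ β = 0
          rw [XTO_empty _ _ _ _ _ _ _ _ _ hcon, mul_zero]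
        obtain ⟨η', hη'⟩ := h4
        obtain ⟨h5, h6, -⟩ := hXZE p e m M hM hme G χ hχ z x hU R C h1 E' η' hη'
        exact ⟨h5, h6⟩
      · rintro ⟨⟨h1, h2, -⟩, h3⟩
        exact ⟨⟨h1, h2⟩, h3⟩
    · refine finsum_mem_eq_zero_of_forall_eq_zero ?_
      rintro C ⟨h1, -⟩
      show (-1 : ℂ) ^ (C.card + 1) * tB p e m M (⊤ : Subgroup G) (nrm C ⊓ nz E') E' χ β = 0
      have h2 : BE p e m M (⊤ : Subgroup G) (nrm C ⊓ nz E') E' χ = ∅ := by
        by_contra hcon
        exact hex ⟨C, h1, Set.nonempty_iff_ne_empty.2 hcon⟩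
      rw [XTO_empty _ _ _ _ _ _ _ _ _ h2, mul_zero]
  rw [hset, finsum_mem_insert _ hnot (hfin _)] at hall
  have h1 : f {R} = tB p e m M (⊤ : Subgroup G) (nz E') E' χ β := by
    show (-1 : ℂ) ^ (({R} : Finset (Subgroup G)).card + 1) * tB p e m M (⊤ : Subgroup G) (nrm {R} ⊓ nz E') E' χ β = _
    rw [hnR, Finset.card_singleton]
    ring
  rw [h1] at hall
  exact eq_neg_of_add_eq_zero_right hall

end Pool.Agent.NAB
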